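import Pool.Agent.Helper7.LQ.Lists

/-!
# Counting the assignments with a given code
-/

namespace Pool.Agent.Helper7.LQ

open Pool.Agent.Helper6.TreeEval Finset

/-! ### The special instances -/

section

variable {K : Type} [Field K] {k : ℕ}

/-- The instance with all internal functions `(x, y) ↦ (x + y) ^ 3` on the embedded field. -/
def inst (emb : K → Fin k) (dec : Fin k → K) (z : Node → K) : Inst k :=
  ⟨fun p => emb (z p), fun _ a b => emb ((dec a + dec b) ^ 3)⟩

theorem inst_val {emb : K → Fin k} {dec : Fin k → K} (hdec : ∀ x, dec (emb x) = x)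
    (z : Node → K) : ∀ (n : ℕ) (p : Node), (inst emb dec z).val n p = emb (cval z n p)
  | 0, p => rfl
  | n + 1, p => by
    simp only [Inst.val, cval, inst_val hdec z n]
    simp only [inst, hdec]

theorem inst_nodeVal {emb : K → Fin k} {dec : Fin k → K} (hdec : ∀ x, dec (emb x) = x)
    (z : Node → K) (d : ℕ) : (inst emb dec z).nodeVal (d + 1) [] = emb (cval z d []) := by
  unfold Inst.nodeVal
  rw [inst_val hdec]
  simp

/-- An assignment of the leaves as a function on all nodes. -/
def ext {d : ℕ} (x : List.Vector Bool d → K) (p : Node) : K :=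
  if h : p.length = d then x ⟨p, h⟩ else 0

theorem ext_of {d : ℕ} (x : List.Vector Bool d → K) {p : Node} (h : p.length = d) :
    ext x p = x ⟨p, h⟩ := dif_pos h

/-- The word of the leaves asked has the right length. -/
theorem length_leafWord {h : ℕ} (B : NBP h k) (l : List B.State) :
    (leafWord B l).length = B.leafQueries l := by
  unfold leafWord NBP.leafQueries
  induction l with
  | nil => rfl
  | cons s l ih =>
    rw [List.filterMap_cons, List.countP_cons]
    rcases hs : B.label s with q | v
    · cases q with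
      | leaf p => simp [ih]
      | fn p a b => simpa using ih
    · simpa using ih

theorem leafQueries_append {h : ℕ} (B : NBP h k) (l l' : List B.State) :
    B.leafQueries (l ++ l') = B.leafQueries l + B.leafQueries l' := by
  unfold NBP.leafQueries
  rw [List.countP_append]

/-- The data of one assignment: a chain of leaves and cut states. -/
structure Data {d : ℕ} (B : NBP (d + 1) k) (emb : K → Fin k) (dec : Fin k → K) (m n : ℕ)
    (x : List.Vector Bool d → K) where
  /-- the cut states -/
  cs : List B.State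
  hcs : cs.length = m
  /-- the owner of the first segment -/
  o : Bool
  /-- the chain -/
  L : List Node
  hL : Chain L d []
  hlen : L.length = 2 * n + 1
  /-- the final state -/
  t : B.State
  ht : B.label t = Sum.inr (emb (cval (ext x) d []))
  hcut : Cut B (inst emb dec (ext x)) (fun p => p ∈ evens L) (fun p => p ∈ odds L) o B.start cs t

end

variable {K : Type} [Field K] [Fintype K] [DecidableEq K] {k : ℕ}

/-- The mixing lemma, as an assumption here. -/
def MixLemma (k : ℕ) : Prop :=
  ∀ {h : ℕ} (B : NBP h k) (Ix Iy Im : Inst k) (A A' : Node → Prop)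
    (_ : ∀ q : Query k, (∀ p, A' p → q ≠ Query.leaf p) → Ix.answer q = Im.answer q)
    (_ : ∀ q : Query k, (∀ p, A p → q ≠ Query.leaf p) → Iy.answer q = Im.answer q)
    (o : Bool) (s : B.State) (cs : List B.State) (t t' : B.State)
    (_ : Cut B Ix A A' o s cs t) (_ : Cut B Iy A A' o s cs t'),
    ∃ l t'', (t'' = t ∨ t'' = t') ∧ B.Walk Im s l t''

/-- Assignments with the same code and the same values outside the chain. -/
theorem card_class (hmix : MixLemma k) {jj : ℕ} (hjj : Odd jj) (hcard : Fintype.card K = 2 ^ jj)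
    {d : ℕ} (B : NBP (d + 1) k) (hB : B.Solves) {emb : K → Fin k} {dec : Fin k → K}
    (hdec : ∀ x, dec (emb x) = x) {n : ℕ} (v₀ : K) (o : Bool)
    (L : List Node) (hL : Chain L d []) (hlen : L.length = 2 * n + 1) (cs : List B.State)
    (C : Finset (List.Vector Bool d → K))
    (hC : ∀ x ∈ C, cval (ext x) d [] = v₀ ∧ ∃ t, B.label t = Sum.inr (emb v₀) ∧
      Cut B (inst emb dec (ext x)) (fun p => p ∈ evens L) (fun p => p ∈ odds L) o B.start cs t)
    (hoff : ∀ x ∈ C, ∀ y ∈ C, ∀ p : List.Vector Bool d, p.1 ∉ L → x p = y p) :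
    C.card ≤ (Fintype.card K * 3 ^ d) ^ n := by
  rcases C.eq_empty_or_nonempty with rfl | ⟨z, hz⟩
  · simp
  have hext : ∀ x ∈ C, ∀ p : Node, p ∉ L → ext x p = ext z p := by
    intro x hx p hp
    unfold ext
    split_ifs with h
    · exact hoff x hx z hz ⟨p, h⟩ hp
    · rfl
  have hemb : Function.Injective emb := fun x y hxy => by rw [← hdec x, hxy, hdec]
  have htower := (hL.tower hjj hcard (L₀ := 3 ^ d) (by rw [pow_succ, mul_comm]) (ext z)).1 n hlen
  have hnd := hL.nodup
  -- the value is constant on the rectangle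
  have hconst : ∀ x ∈ C, ∀ y ∈ C,
      cval (asg (ext z) n L (getA (ext x) n L) (getB (ext y) n L)) d [] = v₀ := by
    intro x hx y hy
    obtain ⟨hvx, tx, htx, hcx⟩ := hC x hx
    obtain ⟨hvy, ty, hty, hcy⟩ := hC y hy
    set m := asg (ext z) n L (getA (ext x) n L) (getB (ext y) n L) with hm
    have hmv := asg_get (ext z) (ext x) (ext y) n L hnd hlen
    have h1 : ∀ q : Query k, (∀ p, p ∈ odds L → q ≠ Query.leaf p) →
        (inst emb dec (ext x)).answer q = (inst emb dec m).answer q := by
      intro q hq
      cases q with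
      | leaf p =>
        simp only [Inst.answer, inst]
        congr 1
        have hp : p ∉ odds L := fun h => hq p h rfl
        rw [hm, hmv p]
        by_cases hpe : p ∈ evens L
        · rw [if_pos hpe]
        · rw [if_neg hpe, if_neg hp]
          exact hext x hx p fun h => (mem_evens_or_odds L p h).elim hpe hp
      | fn p a b => rfl
    have h2 : ∀ q : Query k, (∀ p, p ∈ evens L → q ≠ Query.leaf p) →
        (inst emb dec (ext y)).answer q = (inst emb dec m).answer q := by
      intro q hq
      cases q with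
      | leaf p =>
        simp only [Inst.answer, inst]
        congr 1
        have hp : p ∉ evens L := fun h => hq p h rfl
        rw [hm, hmv p, if_neg hp]
        by_cases hpe : p ∈ odds L
        · rw [if_pos hpe]
        · rw [if_neg hpe]
          exact hext y hy p fun h => (mem_evens_or_odds L p h).elim hp hpe
      | fn p a b => rfl
    obtain ⟨l, t'', ht'', hw⟩ := hmix B _ _ _ _ _ h1 h2 o B.start cs tx ty hcx hcy
    have hlab : B.label t'' = Sum.inr (emb v₀) := by
      rcases ht'' with rfl | rfl
      · exact htx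
      · exact hty
    have h3 := (hB (inst emb dec m)).2 _ _ (comp_iff_walk.2 ⟨l, t'', hw, hlab, rfl⟩)
    rw [inst_nodeVal hdec] at h3
    exact (hemb h3).symm
  -- the rectangle
  have hrect := htower.rect (Nat.one_le_pow _ _ (by norm_num))
    (C.image fun x => getA (ext x) n L) (C.image fun x => getB (ext x) n L) (by
      intro a ha a' ha' b hb
      obtain ⟨x, hx, rfl⟩ := Finset.mem_image.1 ha
      obtain ⟨x', hx', rfl⟩ := Finset.mem_image.1 ha'
      obtain ⟨y, hy, rfl⟩ := Finset.mem_image.1 hb
      rw [hconst x hx y hy, hconst x' hx' y hy])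
  refine le_trans ?_ hrect
  rw [← Finset.card_product]
  apply Finset.card_le_card_of_injOn fun x => (getA (ext x) n L, getB (ext x) n L)
  · intro x hx
    rw [Finset.mem_coe] at hx
    rw [Finset.mem_coe, Finset.mem_product]
    exact ⟨Finset.mem_image_of_mem _ hx, Finset.mem_image_of_mem _ hx⟩
  · intro x hx y hy hxy
    rw [Finset.mem_coe] at hx hy
    simp only [Prod.mk.injEq] at hxy
    funext p
    by_cases hp : p.1 ∈ L
    · have := getA_congr n L hlen hxy.1 hxy.2 p.1 hp
      rw [ext_of _ p.2, ext_of _ p.2] at this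
      exact this
    · exact hoff x hx y hy p hp

/-- Assignments with the same code. -/
theorem card_code (hmix : MixLemma k) {jj : ℕ} (hjj : Odd jj) (hcard : Fintype.card K = 2 ^ jj)
    {d : ℕ} (B : NBP (d + 1) k) (hB : B.Solves) {emb : K → Fin k} {dec : Fin k → K}
    (hdec : ∀ x, dec (emb x) = x) {n : ℕ} (v₀ : K) (o : Bool)
    (L : List Node) (hL : Chain L d []) (hlen : L.length = 2 * n + 1) (cs : List B.State)
    (C : Finset (List.Vector Bool d → K))
    (hC : ∀ x ∈ C, cval (ext x) d [] = v₀ ∧ ∃ t, B.label t = Sum.inr (emb v₀) ∧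
      Cut B (inst emb dec (ext x)) (fun p => p ∈ evens L) (fun p => p ∈ odds L) o B.start cs t) :
    C.card * Fintype.card K ^ (2 * n + 1) ≤
      (Fintype.card K * 3 ^ d) ^ n * Fintype.card K ^ 2 ^ d := by
  classical
  -- the chain as a set of leaves
  let S : Finset (List.Vector Bool d) := univ.filter fun p => p.1 ∈ L
  have hS : S.card = 2 * n + 1 := by
    rw [← hlen, ← List.toFinset_card_of_nodup hL.nodup]
    apply Finset.card_bij (fun p _ => p.1)
    · intro p hp
      rw [Finset.mem_filter] at hp
      exact List.mem_toFinset.2 hp.2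
    · intro p _ p' _ h
      exact Subtype.ext h
    · intro e he
      rw [List.mem_toFinset] at he
      obtain ⟨w, hw, rfl⟩ := hL.mem e he
      rw [List.append_nil] at he ⊢
      exact ⟨⟨w, hw⟩, Finset.mem_filter.2 ⟨Finset.mem_univ _, he⟩, rfl⟩
  let π : (List.Vector Bool d → K) → ({p : List.Vector Bool d // p ∉ S} → K) :=
    fun x p => x p.1
  have h1 : C.card ≤ (Fintype.card K * 3 ^ d) ^ n * (C.image π).card := by
    apply Finset.card_le_mul_card_image
    intro y _
    apply card_class hmix hjj hcard B hB hdec v₀ o L hL hlen cs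
    · intro x hx
      exact hC x (Finset.mem_filter.1 hx).1
    · intro x hx x' hx' p hp
      rw [Finset.mem_filter] at hx hx'
      have hpS : p ∉ S := fun h => hp (Finset.mem_filter.1 h).2
      have e1 := congrFun hx.2 ⟨p, hpS⟩
      have e2 := congrFun hx'.2 ⟨p, hpS⟩
      exact e1.trans e2.symm
  have h2 : (C.image π).card * Fintype.card K ^ (2 * n + 1) ≤ Fintype.card K ^ 2 ^ d := by
    have h3 : (C.image π).card ≤ Fintype.card K ^ (2 ^ d - (2 * n + 1)) := by
      calc (C.image π).card ≤ Fintype.card ({p : List.Vector Bool d // p ∉ S} → K) :=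
            Finset.card_le_univ _
        _ = Fintype.card K ^ (2 ^ d - (2 * n + 1)) := by
            rw [Fintype.card_fun, Fintype.card_subtype_compl, Fintype.card_coe, hS,
              card_vector, Fintype.card_bool]
    have h4 : 2 * n + 1 ≤ 2 ^ d := by
      rw [← hS]
      calc S.card ≤ Fintype.card (List.Vector Bool d) := Finset.card_le_univ _
        _ = 2 ^ d := by rw [card_vector, Fintype.card_bool]
    calc (C.image π).card * Fintype.card K ^ (2 * n + 1)
        ≤ Fintype.card K ^ (2 ^ d - (2 * n + 1)) * Fintype.card K ^ (2 * n + 1) :=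
          Nat.mul_le_mul_right _ h3
      _ = Fintype.card K ^ 2 ^ d := by
          rw [← pow_add, Nat.sub_add_cancel h4]
  calc C.card * Fintype.card K ^ (2 * n + 1)
      ≤ (Fintype.card K * 3 ^ d) ^ n * (C.image π).card * Fintype.card K ^ (2 * n + 1) :=
        Nat.mul_le_mul_right _ h1
    _ = (Fintype.card K * 3 ^ d) ^ n * ((C.image π).card * Fintype.card K ^ (2 * n + 1)) := by
        ring
    _ ≤ (Fintype.card K * 3 ^ d) ^ n * Fintype.card K ^ 2 ^ d := Nat.mul_le_mul_left _ h2

/-- A list of leaves as a list of vectors. -/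
def toVecs (d : ℕ) (L : List Node) (hL : ∀ e ∈ L, e.length = d) : List (List.Vector Bool d) :=
  L.pmap (fun e h => (⟨e, h⟩ : List.Vector Bool d)) hL

theorem length_toVecs (d : ℕ) (L : List Node) (hL : ∀ e ∈ L, e.length = d) :
    (toVecs d L hL).length = L.length := List.length_pmap

theorem map_toVecs (d : ℕ) : ∀ (L : List Node) (hL : ∀ e ∈ L, e.length = d),
    (toVecs d L hL).map List.Vector.toList = L
  | [], _ => rfl
  | e :: L, hL => congrArg (List.cons e)
      (map_toVecs d L fun e he => hL e (List.mem_cons_of_mem _ he))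

theorem Chain.length_eq {L : List Node} {d : ℕ} (h : Chain L d []) :
    ∀ e ∈ L, e.length = d := by
  intro e he
  obtain ⟨w, hw, rfl⟩ := h.mem e he
  rw [List.append_nil]
  exact hw

/-- All assignments. -/
theorem card_all (hmix : MixLemma k) {jj : ℕ} (hjj : Odd jj) (hcard : Fintype.card K = 2 ^ jj)
    {d : ℕ} (B : NBP (d + 1) k) (hB : B.Solves) {emb : K → Fin k} {dec : Fin k → K}
    (hdec : ∀ x, dec (emb x) = x) {m n : ℕ}
    (hD : ∀ x : List.Vector Bool d → K, Nonempty (Data B emb dec m n x)) :
    Fintype.card K ^ n ≤ 12 ^ (d * n) * 2 ^ (d + 1) * Fintype.card B.State ^ m := by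
  classical
  set q := Fintype.card K with hq
  have hq0 : 0 < q := Fintype.card_pos
  let D := fun x => (hD x).some
  -- the code
  let code : (List.Vector Bool d → K) → K × List.Vector B.State m × Bool ×
      List.Vector (List.Vector Bool d) (2 * n + 1) := fun x =>
    (cval (ext x) d [], ⟨(D x).cs, (D x).hcs⟩, (D x).o,
      ⟨toVecs d (D x).L (D x).hL.length_eq, (length_toVecs _ _ _).trans (D x).hlen⟩)
  have hcodeL : ∀ x y, code x = code y → (D x).L = (D y).L := by
    intro x y h
    have h1 : toVecs d (D x).L (D x).hL.length_eq = toVecs d (D y).L (D y).hL.length_eq :=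
      congrArg (fun c => c.2.2.2.1) h
    rw [← map_toVecs d (D x).L (D x).hL.length_eq, h1, map_toVecs]
  have hfib : ∀ c ∈ (univ : Finset (List.Vector Bool d → K)).image code,
      ((univ : Finset (List.Vector Bool d → K)).filter fun x => code x = c).card *
        q ^ (2 * n + 1) ≤ (q * 3 ^ d) ^ n * q ^ 2 ^ d := by
    intro c hc
    obtain ⟨x₀, -, rfl⟩ := Finset.mem_image.1 hc
    apply card_code hmix hjj hcard B hB hdec (cval (ext x₀) d []) (D x₀).o (D x₀).L (D x₀).hL
      (D x₀).hlen (D x₀).cs
    intro x hx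
    rw [Finset.mem_filter] at hx
    have h1 : cval (ext x) d [] = cval (ext x₀) d [] := congrArg Prod.fst hx.2
    have h2 : (D x).cs = (D x₀).cs := congrArg (fun c => c.2.1.1) hx.2
    have h3 : (D x).o = (D x₀).o := congrArg (fun c => c.2.2.1) hx.2
    have h4 := hcodeL x x₀ hx.2
    refine ⟨h1, (D x).t, ?_, ?_⟩
    · rw [← h1]
      exact (D x).ht
    · have := (D x).hcut
      rwa [h2, h3, h4] at this
  have hcount : q ^ 2 ^ d * q ^ (2 * n + 1) ≤
      ((q * 3 ^ d) ^ n * q ^ 2 ^ d) *
        (q * (Fintype.card B.State ^ m * (2 * (2 ^ d) ^ (2 * n + 1)))) := by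
    calc q ^ 2 ^ d * q ^ (2 * n + 1)
        = (univ : Finset (List.Vector Bool d → K)).card * q ^ (2 * n + 1) := by
          rw [Finset.card_univ, Fintype.card_fun, card_vector, Fintype.card_bool]
      _ = ∑ c ∈ (univ : Finset (List.Vector Bool d → K)).image code,
            ((univ : Finset (List.Vector Bool d → K)).filter fun x => code x = c).card *
              q ^ (2 * n + 1) := by
          rw [← Finset.sum_mul]
          congr 1
          exact Finset.card_eq_sum_card_image code univ
      _ ≤ ∑ _c ∈ (univ : Finset (List.Vector Bool d → K)).image code,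
            (q * 3 ^ d) ^ n * q ^ 2 ^ d := Finset.sum_le_sum hfib
      _ = ((univ : Finset (List.Vector Bool d → K)).image code).card *
            ((q * 3 ^ d) ^ n * q ^ 2 ^ d) := by
          rw [Finset.sum_const, smul_eq_mul]
      _ ≤ (q * (Fintype.card B.State ^ m * (2 * (2 ^ d) ^ (2 * n + 1)))) *
            ((q * 3 ^ d) ^ n * q ^ 2 ^ d) := by
          apply Nat.mul_le_mul_right
          refine (Finset.card_le_univ _).trans (le_of_eq ?_)
          rw [Fintype.card_prod, Fintype.card_prod, Fintype.card_prod, card_vector, card_vector,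
            card_vector, Fintype.card_bool]
      _ = _ := by ring
  -- cancel
  have hc2 : (q ^ 2 ^ d * q ^ (n + 1)) * q ^ n ≤ (q ^ 2 ^ d * q ^ (n + 1)) *
      (12 ^ (d * n) * 2 ^ (d + 1) * Fintype.card B.State ^ m) := by
    have e1 : (q ^ 2 ^ d * q ^ (n + 1)) * q ^ n = q ^ 2 ^ d * q ^ (2 * n + 1) := by ring
    have e2 : ((q * 3 ^ d) ^ n * q ^ 2 ^ d) *
        (q * (Fintype.card B.State ^ m * (2 * (2 ^ d) ^ (2 * n + 1)))) =
        (q ^ 2 ^ d * q ^ (n + 1)) *
          (12 ^ (d * n) * 2 ^ (d + 1) * Fintype.card B.State ^ m) := by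
      have h12 : (12 : ℕ) ^ (d * n) = 3 ^ (d * n) * (2 ^ (d * n) * 2 ^ (d * n)) := by
        rw [← mul_pow, ← mul_pow]
        norm_num
      have h3 : ((3 : ℕ) ^ d) ^ n = 3 ^ (d * n) := (pow_mul _ _ _).symm
      have h2 : ((2 : ℕ) ^ d) ^ (2 * n + 1) = 2 ^ (d * n) * 2 ^ (d * n) * 2 ^ d := by
        rw [← pow_mul, ← pow_add, ← pow_add]
        congr 1
        ring
      rw [mul_pow, h12, h3, h2]
      ring
    rw [e1, ← e2]
    exact hcount
  exact Nat.le_of_mul_le_mul_left hc2 (by positivity)

end Pool.Agent.Helper7.LQ
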