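import Mathlib
import Pool.Agent.Helper6.ThriftyHybrid

/-!
# Few leaf queries: definitions used in the proof
-/

namespace Pool.Agent.Helper7.LQ

open Pool.Agent.Helper6.TreeEval

/-! ### The special instances -/

/-- The value of the node `u` with `n` further levels below it, when the leaf `p` has the value
`z p` in the field `K` and all internal functions are `(x, y) ↦ (x + y) ^ 3`. -/
def cval {K : Type} [Field K] (z : Node → K) : ℕ → Node → K
  | 0, p => z p
  | n + 1, p => (cval z n (false :: p) + cval z n (true :: p)) ^ 3

/-! ### Chains of leaves -/

/-- `Chain L j u`: the list `L` of leaves below the node `u` of height `j` is obtained by walking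
down from `u`; at each step the child `b :: p` is entered, and possibly a leaf of the other
child is recorded. -/
inductive Chain : List Node → ℕ → Node → Prop
  | nil (j : ℕ) (u : Node) : Chain [] j u
  | skip {L : List Node} {j : ℕ} {u : Node} (b : Bool) (h : Chain L j (b :: u)) :
      Chain L (j + 1) u
  | record {L : List Node} {j : ℕ} {u : Node} (b : Bool) (w : Node) (hw : w.length = j)
      (h : Chain L j (b :: u)) : Chain ((w ++ (!b) :: u) :: L) (j + 1) u

/-! ### Patterns -/

/-- The pattern of the letters `p` (`true`) and `q` (`false`) in the word `W`. -/
def pat {α : Type} [DecidableEq α] (W : List α) (p q : α) : List Bool :=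
  (W.filter fun x => x = p ∨ x = q).map fun x => decide (x = p)

/-- The pattern with the roles exchanged. -/
def swp (ω : List Bool) : List Bool := ω.map not

/-- In the list `L`, the entries with even index have pattern `ω` with all later entries, those
with odd index the exchanged pattern. -/
def AltList {α : Type} [DecidableEq α] (W : List α) : List Bool → List α → Prop
  | _, [] => True
  | ω, e :: L => (∀ f ∈ L, pat W e f = ω) ∧ AltList W (swp ω) L

/-- The word `W` is the concatenation of `m` words which avoid alternately the letters of `B`
and of `A`; the first one avoids `B` if `o = true`. -/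
def Segs {α : Type} (A B : α → Prop) : ℕ → Bool → List α → Prop
  | 0, _, W => W = []
  | m + 1, o, W => ∃ P R, W = P ++ R ∧ (∀ x ∈ P, ¬ (if o then B x else A x)) ∧
      Segs A B m (!o) R

/-! ### Walks of branching programs -/

variable {h k : ℕ}

/-- One can walk from `s` to `t` without asking a leaf with the property `A`. -/
def Seg (B : NBP h k) (I : Inst k) (A : Node → Prop) (s t : B.State) : Prop :=
  ∃ l, B.Walk I s l t ∧ ∀ u ∈ l, ∀ p, A p → B.label u ≠ Sum.inl (Query.leaf p)

/-- One can walk from `s` to `t` through the states of the list, such that the parts of the walk
avoid alternately the leaves of `A'` and of `A`; the first one avoids `A'` if `o = true`. -/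
def Cut (B : NBP h k) (I : Inst k) (A A' : Node → Prop) :
    Bool → B.State → List B.State → B.State → Prop
  | o, s, [], t => Seg B I (fun p => if o then A' p else A p) s t
  | o, s, c :: cs, t => Seg B I (fun p => if o then A' p else A p) s c ∧
      Cut B I A A' (!o) c cs t

/-- The word of the leaves asked by a list of states. -/
def leafWord (B : NBP h k) (l : List B.State) : List Node :=
  l.filterMap fun s => match B.label s with
    | Sum.inl (Query.leaf p) => some p
    | _ => none

end Pool.Agent.Helper7.LQ
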