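import Pool.Agent.Helper7.LQ.Main
import Pool.Agent.Helper77.LQ.Chain

/-!
# Unrestricted nondeterministic branching programs for tree evaluation with few leaf queries
-/

namespace Pool.Agent.Helper7.LQ.LeafQueryTradeOff

open Pool.Agent.Helper6.TreeEval Pool.Agent.Helper7.LQ

/-- A nondeterministic branching program which solves tree evaluation on the complete binary tree
with `h` levels, such that on each instance some correct computation makes at most
`r 2 ^ (h - 1)` leaf queries (and any number of queries of the functions at internal nodes), has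
at least `k ^ (n / (2 r - 1)) / C (h, n)` states, for all `n` with `5 r 4 ^ r (n + 1) ≤ h`, and for
`r = 1` also for all `n` with `2 n + 2 ≤ h`. -/
theorem result (h k r n : ℕ) (hk : 2 ≤ k) (hr : 1 ≤ r)
    (hn : 5 * r * 4 ^ r * (n + 1) ≤ h ∨ (r = 1 ∧ 2 * n + 2 ≤ h)) (B : NBP h k) (hB : B.Solves)
    (hq : ∀ I : Inst k, ∃ l, B.Comp I B.start l (I.nodeVal h []) ∧
      B.leafQueries l ≤ r * 2 ^ (h - 1)) :
    k ^ n ≤ 12 ^ (h * n) * 2 ^ h * Fintype.card B.State ^ (2 * r - 1) := by
  obtain ⟨d, rfl⟩ : ∃ d, h = d + 1 := by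
    refine ⟨h - 1, ?_⟩
    rcases hn with hn | ⟨-, hn⟩
    · have : 0 < 5 * r * 4 ^ r * (n + 1) := by positivity
      omega
    · omega
  rw [Nat.add_sub_cancel] at hq
  refine bound_of_chain hk hr ?_ B hB hq
  intro W hW hall
  have hone : r = 1 → 2 * n + 1 ≤ d → ∃ (L : List Node) (ω : List Bool), Chain L d [] ∧
      L.length = 2 * n + 1 ∧ ω.length ≤ 2 * r ∧ AltList W ω L := by
    rintro rfl hd
    rw [one_mul] at hW
    exact Pool.Agent.Helper40.LQ.exists_chain_one d W hW hall n hd
  rcases hn with hn | ⟨hr1, hn⟩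
  · rcases Nat.lt_or_ge 1 r with hr2 | hr2
    · exact exists_chain d r hr2 W hW hall n hn
    · have hr1 : r = 1 := by omega
      refine hone hr1 ?_
      subst hr1
      omega
  · exact hone hr1 (by omega)

end Pool.Agent.Helper7.LQ.LeafQueryTradeOff
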