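import Pool.Agent.Helper7.LQ.Tower

/-!
# The members of even and odd index of a list
-/

namespace Pool.Agent.Helper7.LQ

open Pool.Agent.Helper6.TreeEval Finset

/-- The members of even index (the first one included). -/
def evens {α : Type} : List α → List α
  | [] => []
  | [a] => [a]
  | a :: _ :: L => a :: evens L

/-- The members of odd index. -/
def odds {α : Type} (L : List α) : List α := evens L.tail

theorem evens_cons {α : Type} (e : α) (L : List α) : evens (e :: L) = e :: odds L := by
  cases L <;> rfl

theorem odds_cons {α : Type} (e : α) (L : List α) : odds (e :: L) = evens L := rfl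

theorem evens_odds_subset {α : Type} (L : List α) : (∀ x ∈ evens L, x ∈ L) ∧ ∀ x ∈ odds L, x ∈ L := by
  induction L with
  | nil => simp [odds, evens]
  | cons e L ih =>
    rw [evens_cons, odds_cons]
    refine ⟨fun x hx => ?_, fun x hx => List.mem_cons_of_mem _ (ih.1 x hx)⟩
    rcases List.mem_cons.1 hx with rfl | hx
    · exact List.mem_cons_self
    · exact List.mem_cons_of_mem _ (ih.2 x hx)

theorem mem_evens_or_odds {α : Type} (L : List α) : ∀ x ∈ L, x ∈ evens L ∨ x ∈ odds L := by
  induction L with
  | nil => simp
  | cons e L ih =>
    rw [evens_cons, odds_cons]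
    intro x hx
    rcases List.mem_cons.1 hx with rfl | hx
    · exact Or.inl List.mem_cons_self
    · rcases ih x hx with h | h
      · exact Or.inr h
      · exact Or.inl (List.mem_cons_of_mem _ h)

theorem evens_disjoint_odds {α : Type} (L : List α) (hL : L.Nodup) :
    ∀ x ∈ evens L, x ∉ odds L := by
  induction L with
  | nil => simp [evens]
  | cons e L ih =>
    rw [evens_cons, odds_cons]
    rw [List.nodup_cons] at hL
    intro x hx hx'
    rcases List.mem_cons.1 hx with rfl | hx
    · exact hL.1 ((evens_odds_subset L).1 _ hx')
    · exact ih hL.2 x hx' hx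

theorem pat_swap_roles {α : Type} [DecidableEq α] (W : List α) {x y : α} (hxy : x ≠ y) :
    pat W y x = swp (pat W x y) := by
  unfold pat swp
  rw [List.map_map]
  have h1 : (W.filter fun z => z = y ∨ z = x) = W.filter fun z => z = x ∨ z = y := by
    congr 1
    funext z
    simp only [decide_eq_decide]
    tauto
  rw [h1]
  apply List.map_congr_left
  intro z hz
  rw [List.mem_filter] at hz
  have hz2 : z = x ∨ z = y := by simpa using hz.2
  rcases hz2 with rfl | rfl
  · simp [hxy]
  · simp [hxy.symm]

theorem swp_swp_self (ω : List Bool) : swp (swp ω) = ω := by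
  unfold swp
  rw [List.map_map]
  conv_rhs => rw [← List.map_id ω]
  apply List.map_congr_left
  intro b _
  cases b <;> rfl

theorem AltList.cross {α : Type} [DecidableEq α] {W : List α} : ∀ (L : List α) (ω : List Bool),
    L.Nodup → AltList W ω L → ∀ a ∈ evens L, ∀ b ∈ odds L, pat W a b = ω
  | [], ω, _, _ => by simp [evens]
  | e :: L, ω, hL, h => by
    rw [List.nodup_cons] at hL
    obtain ⟨h1, h2⟩ := h
    rw [evens_cons, odds_cons]
    intro a ha b hb
    rcases List.mem_cons.1 ha with rfl | ha
    · exact h1 b ((evens_odds_subset L).1 b hb)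
    · have h3 := AltList.cross L (swp ω) hL.2 h2 b hb a ha
      have hne : b ≠ a := by
        rintro rfl
        exact evens_disjoint_odds L hL.2 _ hb ha
      rw [pat_swap_roles W hne, h3, swp_swp_self]

variable {K : Type}

/-- The values of Alice's members. -/
def getA (x : Node → K) : (n : ℕ) → List Node → Fin (n + 1) → K
  | 0, e :: _ => fun _ => x e
  | n + 1, e :: _ :: L => Fin.snoc (getA x n L) (x e)
  | _, _ => fun _ => x []

/-- The values of Bob's members. -/
def getB (x : Node → K) : (n : ℕ) → List Node → Fin n → K
  | 0, _ => Fin.elim0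
  | n + 1, _ :: f :: L => Fin.snoc (getB x n L) (x f)
  | _, _ => fun _ => x []

open Classical in
theorem asg_get (z x y : Node → K) : ∀ (n : ℕ) (L : List Node), L.Nodup → L.length = 2 * n + 1 →
    ∀ p, asg z n L (getA x n L) (getB y n L) p =
      if p ∈ evens L then x p else if p ∈ odds L then y p else z p
  | 0, L, _, hlen, p => by
    obtain ⟨e, rfl⟩ := List.length_eq_one_iff.1 hlen
    simp only [asg, getA, evens, odds, List.tail_cons, List.mem_singleton, List.not_mem_nil,
      if_false]
    by_cases hp : p = e
    · subst hp
      rw [Function.update_self, if_pos rfl]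
    · rw [Function.update_of_ne hp, if_neg hp]
  | n + 1, [], _, hlen, _ => by
    simp at hlen
  | n + 1, [_], _, hlen, _ => by
    simp only [List.length_singleton] at hlen
    omega
  | n + 1, e :: f :: L, hL, hlen, p => by
    have hlen' : L.length = 2 * n + 1 := by
      simp only [List.length_cons] at hlen
      omega
    rw [List.nodup_cons, List.nodup_cons] at hL
    have ih := asg_get z x y n L hL.2.2 hlen' p
    have h1 : evens (e :: f :: L) = e :: evens L := rfl
    have h2 : odds (e :: f :: L) = f :: odds L := by
      rw [odds_cons, evens_cons]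
    rw [h1, h2]
    simp only [asg, getA, getB, Fin.snoc_last, Fin.init_snoc]
    have hef : e ≠ f := fun h => hL.1 (h ▸ List.mem_cons_self)
    by_cases hpe : p = e
    · subst hpe
      rw [Function.update_self, if_pos List.mem_cons_self]
    · rw [Function.update_of_ne hpe]
      by_cases hpf : p = f
      · subst hpf
        have hnot : p ∉ e :: evens L := by
          rw [List.mem_cons, not_or]
          exact ⟨hpe, fun h => hL.2.1 ((evens_odds_subset L).1 _ h)⟩
        rw [Function.update_self, if_neg hnot, if_pos List.mem_cons_self]
      · rw [Function.update_of_ne hpf, ih]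
        simp only [List.mem_cons, hpe, hpf, false_or]

theorem getA_congr {x y : Node → K} : ∀ (n : ℕ) (L : List Node), L.length = 2 * n + 1 →
    (getA x n L = getA y n L → getB x n L = getB y n L → ∀ p ∈ L, x p = y p)
  | 0, L, hlen, h1, _, p, hp => by
    obtain ⟨e, rfl⟩ := List.length_eq_one_iff.1 hlen
    rw [List.mem_singleton] at hp
    subst hp
    exact congrFun h1 0
  | n + 1, [], hlen, _, _, _, _ => by
    simp at hlen
  | n + 1, [_], hlen, _, _, _, _ => by
    simp only [List.length_singleton] at hlen
    omega
  | n + 1, e :: f :: L, hlen, h1, h2, p, hp => by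
    have hlen' : L.length = 2 * n + 1 := by
      simp only [List.length_cons] at hlen
      omega
    simp only [getA, getB] at h1 h2
    have h3 := congrFun h1 (Fin.last _)
    have h4 := congrFun h2 (Fin.last _)
    rw [Fin.snoc_last, Fin.snoc_last] at h3 h4
    have h5 : getA x n L = getA y n L := by
      have := congrArg Fin.init h1
      rwa [Fin.init_snoc, Fin.init_snoc] at this
    have h6 : getB x n L = getB y n L := by
      have := congrArg Fin.init h2
      rwa [Fin.init_snoc, Fin.init_snoc] at this
    rcases List.mem_cons.1 hp with rfl | hp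
    · exact h3
    · rcases List.mem_cons.1 hp with rfl | hp
      · exact h4
      · exact getA_congr n L hlen' h5 h6 p hp

end Pool.Agent.Helper7.LQ
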