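import Pool.Agent.Helper7.LQ.Count
import Pool.Agent.Helper19.LQ.Runs
import Pool.Agent.Helper35.LQ.Cut
import Pool.Agent.Helper40.LQ.One

/-!
# Few leaf queries: the lower bound, from the existence of chains
-/

namespace Pool.Agent.Helper7.LQ

open Pool.Agent.Helper6.TreeEval Finset

/-- Every computation which outputs the right value on a special instance asks all leaves. -/
theorem all_leaves {K : Type} [Field K] [DecidableEq K]
    (hcube : Function.Injective fun x : K => x ^ 3) {k d : ℕ} (B : NBP (d + 1) k) (hB : B.Solves)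
    {emb : K → Fin k} {dec : Fin k → K} (hdec : ∀ x, dec (emb x) = x) (z : Node → K)
    {l : List B.State} {t : B.State} (hw : B.Walk (inst emb dec z) B.start l t) {v : Fin k}
    (ht : B.label t = Sum.inr v) : ∀ w : Node, w.length = d → w ∈ leafWord B l := by
  intro w hwd
  by_contra hno
  have hemb : Function.Injective emb := fun x y hxy => by rw [← hdec x, hxy, hdec]
  set z' := Function.update z w (z w + 1) with hz'
  have h1 : B.Walk (inst emb dec z') B.start l t := by
    refine hw.congr fun u hu q hq => ?_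
    cases q with
    | leaf p =>
      have hp : p ≠ w := by
        rintro rfl
        exact hno (mem_leafWord hu hq)
      simp only [Inst.answer, inst]
      rw [hz', Function.update_of_ne hp]
    | fn p a b => rfl
  have h2 := (hB _).2 _ _ (comp_iff_walk.2 ⟨l, t, hw, ht, rfl⟩)
  have h3 := (hB _).2 _ _ (comp_iff_walk.2 ⟨l, t, h1, ht, rfl⟩)
  rw [inst_nodeVal hdec] at h2 h3
  have h4 : cval z d [] = cval z' d [] := hemb (h2.symm.trans h3)
  have h5 := cval_update_injective hcube z d w [] hwd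
  have h6 : z w = z w + 1 := by
    apply h5
    simp only [List.append_nil]
    rw [Function.update_eq_self]
    exact h4
  exact one_ne_zero (left_eq_add.1 h6)

/-- The existence of chains in words. -/
def ChainLemma (d r n : ℕ) : Prop :=
  ∀ W : List Node, W.length ≤ r * 2 ^ d → (∀ w : Node, w.length = d → w ∈ W) →
    ∃ (L : List Node) (ω : List Bool), Chain L d [] ∧ L.length = 2 * n + 1 ∧
      ω.length ≤ 2 * r ∧ AltList W ω L

theorem exists_data {K : Type} [Field K] [Fintype K] [DecidableEq K] {jj : ℕ} (hjj : Odd jj)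
    (hcard : Fintype.card K = 2 ^ jj) {k d r n : ℕ} (hr : 1 ≤ r) (hn : 1 ≤ n)
    (hchain : ChainLemma d r n) (B : NBP (d + 1) k) (hB : B.Solves)
    (hq : ∀ I : Inst k, ∃ l, B.Comp I B.start l (I.nodeVal (d + 1) []) ∧
      B.leafQueries l ≤ r * 2 ^ d)
    {emb : K → Fin k} {dec : Fin k → K} (hdec : ∀ x, dec (emb x) = x)
    (x : List.Vector Bool d → K) : Nonempty (Data B emb dec (2 * r - 1) n x) := by
  obtain ⟨l₀, hc, hl₀⟩ := hq (inst emb dec (ext x))
  obtain ⟨l, t, hw, ht, rfl⟩ := comp_iff_walk.1 hc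
  rw [inst_nodeVal hdec] at ht
  have hW : (leafWord B l).length ≤ r * 2 ^ d := by
    rw [length_leafWord]
    rw [leafQueries_append] at hl₀
    omega
  have hall := all_leaves (cube_injective hjj hcard) B hB hdec (ext x) hw ht
  obtain ⟨L, ω, hL, hlen, hω, halt⟩ := hchain _ hW hall
  have hnd := hL.nodup
  obtain ⟨a0, b0, L', hL'⟩ : ∃ a0 b0 L', L = a0 :: b0 :: L' := by
    match L, hlen with
    | [], h => simp at h
    | [a], h =>
      simp only [List.length_singleton] at h
      omega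
    | a :: b :: L', _ => exact ⟨a, b, L', rfl⟩
  obtain ⟨o, ho⟩ := runs (A := fun p => p ∈ evens L) (B := fun p => p ∈ odds L)
    (a0 := a0) (b0 := b0)
    (by
      rw [hL', evens_cons]
      exact List.mem_cons_self)
    (by
      rw [hL', odds_cons, evens_cons]
      exact List.mem_cons_self)
    (evens_disjoint_odds L hnd) (2 * r) (by omega) ω hω (leafWord B l)
    (fun a b ha hb => AltList.cross L ω hnd halt a ha b hb)
  have ho' : Segs (fun p => p ∈ evens L) (fun p => p ∈ odds L) (2 * r - 1 + 1) o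
      (leafWord B l) := by
    rw [Nat.sub_add_cancel (by omega)]
    exact ho
  obtain ⟨cs, hcs, hcut⟩ := exists_cut B _ _ _ (2 * r - 1) o l _ _ hw ho'
  exact ⟨⟨cs, hcs, o, L, hL, hlen, t, ht, hcut⟩⟩

theorem exists_odd_pow (k : ℕ) (hk : 2 ≤ k) : ∃ j, Odd j ∧ 2 ^ j ≤ k ∧ k ≤ 4 * 2 ^ j := by
  have h1 : 2 ^ Nat.log 2 k ≤ k := Nat.pow_log_le_self 2 (by omega)
  have h2 : k < 2 ^ (Nat.log 2 k + 1) := Nat.lt_pow_succ_log_self (by norm_num) k
  have h3 : 1 ≤ Nat.log 2 k := Nat.log_pos (by norm_num) hk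
  rcases Nat.even_or_odd (Nat.log 2 k) with he | ho
  · refine ⟨Nat.log 2 k - 1, ?_, ?_, ?_⟩
    · obtain ⟨m, hm⟩ := he
      exact ⟨m - 1, by omega⟩
    · exact (Nat.pow_le_pow_right (by norm_num) (Nat.sub_le _ _)).trans h1
    · obtain ⟨m, hm⟩ : ∃ m, Nat.log 2 k = m + 1 := ⟨Nat.log 2 k - 1, by omega⟩
      rw [hm] at h2 ⊢
      rw [Nat.add_sub_cancel]
      rw [pow_succ, pow_succ] at h2
      omega
  · refine ⟨Nat.log 2 k, ho, h1, ?_⟩
    rw [pow_succ] at h2
    omega

/-- The lower bound, given chains. -/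
theorem bound_of_chain {k d r n : ℕ} (hk : 2 ≤ k) (hr : 1 ≤ r)
    (hchain : ChainLemma d r n) (B : NBP (d + 1) k) (hB : B.Solves)
    (hq : ∀ I : Inst k, ∃ l, B.Comp I B.start l (I.nodeVal (d + 1) []) ∧
      B.leafQueries l ≤ r * 2 ^ d) :
    k ^ n ≤ 12 ^ ((d + 1) * n) * 2 ^ (d + 1) * Fintype.card B.State ^ (2 * r - 1) := by
  have hS : 1 ≤ Fintype.card B.State := Fintype.card_pos_iff.2 ⟨B.start⟩
  rcases Nat.eq_zero_or_pos n with rfl | hn
  · rw [pow_zero]
    exact Nat.mul_pos (Nat.mul_pos (by positivity) (by positivity)) (pow_pos hS _)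
  obtain ⟨j, hj, hjk, hkj⟩ := exists_odd_pow k hk
  have hj0 : j ≠ 0 := by
    rintro rfl
    simp at hj
  classical
  have : Fact (Nat.Prime 2) := ⟨Nat.prime_two⟩
  let K := GaloisField 2 j
  have : Finite K := inferInstanceAs (Finite (GaloisField 2 j))
  have : Fintype K := Fintype.ofFinite K
  have hcard : Fintype.card K = 2 ^ j := by
    rw [← Nat.card_eq_fintype_card]
    exact GaloisField.card 2 j hj0
  obtain ⟨emb⟩ : Nonempty (K ↪ Fin k) := by
    apply Function.Embedding.nonempty_of_card_le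
    rw [hcard, Fintype.card_fin]
    exact hjk
  let dec : Fin k → K := Function.invFun emb
  have hdec : ∀ x, dec (emb x) = x := Function.leftInverse_invFun emb.injective
  have hmain := card_all (K := K) (fun B Ix Iy Im A A' => mix B Ix Iy Im A A') hj hcard B hB
    (emb := emb) (dec := dec) hdec
    (exists_data hj hcard hr hn hchain B hB hq (emb := emb) hdec)
  rw [hcard] at hmain
  calc k ^ n ≤ (4 * 2 ^ j) ^ n := Nat.pow_le_pow_left hkj n
    _ = 4 ^ n * (2 ^ j) ^ n := mul_pow _ _ _
    _ ≤ 4 ^ n * (12 ^ (d * n) * 2 ^ (d + 1) * Fintype.card B.State ^ (2 * r - 1)) :=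
        Nat.mul_le_mul_left _ hmain
    _ ≤ 12 ^ n * (12 ^ (d * n) * 2 ^ (d + 1) * Fintype.card B.State ^ (2 * r - 1)) :=
        Nat.mul_le_mul_right _ (Nat.pow_le_pow_left (by norm_num) n)
    _ = 12 ^ ((d + 1) * n) * 2 ^ (d + 1) * Fintype.card B.State ^ (2 * r - 1) := by
        rw [add_mul, one_mul, pow_add]
        ring

end Pool.Agent.Helper7.LQ
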