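import Mathlib

/-!
# Monic polynomial maps of odd degree in characteristic two, and the cube map
-/

namespace Pool.Agent.Helper7.LQ

open Finset Polynomial

variable {K : Type} [Field K]

/-- `φ` is the function of a monic polynomial of degree `D`. -/
def Good (D : ℕ) (φ : K → K) : Prop :=
  ∃ P : K[X], P.Monic ∧ P.natDegree = D ∧ ∀ s, φ s = P.eval s

theorem Good.id : Good 1 (fun s : K => s) :=
  ⟨X, monic_X, natDegree_X, fun s => by simp⟩

/-- Composition on the outside with `s ↦ (s + c) ^ 3`. -/
theorem Good.outer {D : ℕ} {φ : K → K} (h : Good D φ) (hD : 1 ≤ D) (c : K) :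
    Good (3 * D) (fun s => (φ s + c) ^ 3) := by
  obtain ⟨P, hP, hd, he⟩ := h
  have h1 : (P + C c).Monic := by
    apply hP.add_of_left
    refine lt_of_le_of_lt degree_C_le ?_
    rw [degree_eq_natDegree hP.ne_zero, hd]
    exact_mod_cast hD
  refine ⟨(P + C c) ^ 3, h1.pow 3, ?_, fun s => by simp [he s]⟩
  rw [h1.natDegree_pow]
  congr 1
  rw [natDegree_add_C, hd]

/-- The main counting lemma. -/
theorem Good.count [Fintype K] [DecidableEq K] {D : ℕ} {φ : K → K} (h : Good D φ) (hD : 1 ≤ D)
    (hK : ((3 * D : ℕ) : K) ≠ 0) {u u' : K} (hu : u ≠ u') (c : K) :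
    (univ.filter fun w => φ ((u + w) ^ 3) = φ ((u' + w) ^ 3) + c).card ≤ 3 * D := by
  obtain ⟨P, hP, hd, he⟩ := h
  -- the polynomial
  have hcoeff : ∀ v : K, (P.comp ((X + C v) ^ 3)).coeff (3 * D - 1) = v * ((3 * D : ℕ) : K) := by
    intro v
    have e1 : P.comp ((X + C v) ^ 3) = (X + C v) ^ (3 * D) + (P - X ^ D).comp ((X + C v) ^ 3) := by
      rw [sub_comp, X_pow_comp, ← pow_mul]
      ring
    rw [e1, coeff_add]
    have e2 : ((P - X ^ D).comp ((X + C v) ^ 3)).coeff (3 * D - 1) = 0 := by
      apply coeff_eq_zero_of_natDegree_lt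
      refine lt_of_le_of_lt natDegree_comp_le ?_
      have e3 : ((X + C v) ^ 3 : K[X]).natDegree = 3 := by
        rw [(monic_X_add_C v).natDegree_pow, natDegree_X_add_C]
      rw [e3]
      have e4 : (P - X ^ D).natDegree ≤ D - 1 := by
        rw [natDegree_le_iff_coeff_eq_zero]
        intro N hN
        rw [coeff_sub, coeff_X_pow]
        rcases Nat.lt_or_ge D N with hlt | hge
        · rw [coeff_eq_zero_of_natDegree_lt (by omega), if_neg (by omega), sub_zero]
        · have : N = D := by omega
          subst this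
          rw [if_pos rfl]
          have : P.coeff P.natDegree = 1 := hP
          rw [hd] at this
          rw [this, sub_self]
      omega
    rw [e2, add_zero, coeff_X_add_C_pow]
    have e5 : 3 * D - (3 * D - 1) = 1 := by omega
    rw [e5, pow_one]
    congr 2
    have e6 : 3 * D = (3 * D - 1) + 1 := by omega
    rw [e6, Nat.add_sub_cancel, Nat.choose_succ_self_right]
  set Q : K[X] := P.comp ((X + C u) ^ 3) - P.comp ((X + C u') ^ 3) - C c with hQ
  have hQne : Q ≠ 0 := by
    intro h0
    have h1 : Q.coeff (3 * D - 1) = 0 := by rw [h0, coeff_zero]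
    rw [hQ, coeff_sub, coeff_sub, hcoeff, hcoeff, coeff_C, if_neg (by omega), sub_zero,
      ← sub_mul] at h1
    rcases mul_eq_zero.1 h1 with h2 | h2
    · exact hu (sub_eq_zero.1 h2)
    · exact hK h2
  have hQd : Q.natDegree ≤ 3 * D := by
    have h1 : ∀ v : K, (P.comp ((X + C v) ^ 3)).natDegree ≤ 3 * D := by
      intro v
      refine natDegree_comp_le.trans ?_
      rw [(monic_X_add_C v).natDegree_pow, natDegree_X_add_C, hd]
      omega
    refine (natDegree_sub_le _ _).trans (max_le ((natDegree_sub_le _ _).trans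
      (max_le (h1 u) (h1 u'))) ?_)
    simp
  calc (univ.filter fun w => φ ((u + w) ^ 3) = φ ((u' + w) ^ 3) + c).card
      ≤ Q.roots.toFinset.card := by
        apply Finset.card_le_card
        intro w hw
        rw [Finset.mem_filter] at hw
        rw [Multiset.mem_toFinset, mem_roots hQne, IsRoot.def, hQ]
        simp only [eval_sub, eval_comp, eval_pow, eval_add, eval_X, eval_C]
        have := hw.2
        rw [he, he, add_comm u, add_comm u'] at this
        rw [this]
        ring
    _ ≤ Multiset.card Q.roots := Multiset.toFinset_card_le _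
    _ ≤ Q.natDegree := card_roots' Q
    _ ≤ 3 * D := hQd

/-- The cube map is injective on the field with `2 ^ j` elements, `j` odd. -/
theorem cube_injective [Fintype K] {j : ℕ} (hj : Odd j) (hcard : Fintype.card K = 2 ^ j) :
    Function.Injective fun x : K => x ^ 3 := by
  intro x y hxy
  simp only at hxy
  by_cases hy : y = 0
  · subst hy
    rw [zero_pow (by norm_num)] at hxy
    exact pow_eq_zero_iff (by norm_num) |>.1 hxy
  have hx : x ≠ 0 := by
    rintro rfl
    rw [zero_pow (by norm_num)] at hxy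
    exact hy (pow_eq_zero_iff (by norm_num) |>.1 hxy.symm)
  -- the quotient has order dividing `3` and `2 ^ j - 1`
  have h3 : (x / y) ^ 3 = 1 := by
    rw [div_pow, hxy, div_self (pow_ne_zero _ hy)]
  have h4 : (x / y) ^ (Fintype.card K - 1) = 1 :=
    FiniteField.pow_card_sub_one_eq_one _ (div_ne_zero hx hy)
  rw [hcard] at h4
  have hcop : Nat.Coprime 3 (2 ^ j - 1) := by
    rw [Nat.Prime.coprime_iff_not_dvd Nat.prime_three]
    intro hdvd
    obtain ⟨m, rfl⟩ := hj
    have h5 : 2 ^ (2 * m + 1) % 3 = 2 := by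
      have h4 : 4 ^ m % 3 = 1 := by
        rw [Nat.pow_mod]
        norm_num
      have h6 : 2 ^ (2 * m + 1) = 2 * 4 ^ m := by
        rw [pow_succ, pow_mul]
        norm_num
        ring
      rw [h6, Nat.mul_mod, h4]
    have h6 : 1 ≤ 2 ^ (2 * m + 1) := Nat.one_le_two_pow
    generalize 2 ^ (2 * m + 1) = E at hdvd h5 h6
    omega
  have h7 : orderOf (x / y) ∣ 1 := by
    rw [← hcop]
    exact Nat.dvd_gcd (orderOf_dvd_of_pow_eq_one h3) (orderOf_dvd_of_pow_eq_one h4)
  have h8 : x / y = 1 := by
    rw [← orderOf_eq_one_iff]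
    exact Nat.dvd_one.1 h7
  rwa [div_eq_one_iff_eq hy] at h8

/-- In a field with `2 ^ j` elements, odd numbers are nonzero. -/
theorem odd_cast_ne_zero [Fintype K] {j : ℕ} (hj : j ≠ 0) (hcard : Fintype.card K = 2 ^ j)
    {m : ℕ} (hm : Odd m) : (m : K) ≠ 0 := by
  have h2 : ((2 : ℕ) : K) = 0 := by
    have : ((2 ^ j : ℕ) : K) = 0 := by
      rw [← hcard]
      exact FiniteField.cast_card_eq_zero K
    rw [Nat.cast_pow] at this
    exact (pow_eq_zero_iff hj).1 this
  obtain ⟨a, rfl⟩ := hm
  rw [Nat.cast_add, Nat.cast_mul, h2, zero_mul, zero_add, Nat.cast_one]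
  exact one_ne_zero

end Pool.Agent.Helper7.LQ
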