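import Mathlib

/-!
# Rectangles on which an alternating tower is constant

Alice owns `n + 1` coordinates, Bob owns `n`; the coordinates alternate, the lowest and the
highest one belong to Alice.
-/

namespace Pool.Agent.Helper7.LQ

open Finset

/-- Towers: functions of the alternating coordinates (the last one is the highest). -/
inductive IsTower (K : Type) [Fintype K] [DecidableEq K] (L : ℕ) :
    ∀ n : ℕ, ((Fin (n + 1) → K) → (Fin n → K) → K) → Prop
  | base (h : K → K) (hh : Function.Injective h) : IsTower K L 0 (fun x _ => h (x 0))
  | step {n : ℕ} (F : (Fin (n + 1) → K) → (Fin n → K) → K) (hF : IsTower K L n F)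
      (G H : K → K → K)
      (h1 : ∀ x, Function.Injective fun s => H s x) (h2 : ∀ s, Function.Injective (H s))
      (h3 : ∀ y, Function.Injective fun u => G u y)
      (h4 : ∀ u u' x x', u ≠ u' →
        (univ.filter fun y => H (G u y) x = H (G u' y) x').card ≤ L) :
      IsTower K L (n + 1) (fun a b =>
        H (G (F (Fin.init a) (Fin.init b)) (b (Fin.last n))) (a (Fin.last (n + 1))))

theorem eq_of_init_last {K : Type} {n : ℕ} {a b : Fin (n + 1) → K}
    (h1 : Fin.init a = Fin.init b) (h2 : a (Fin.last n) = b (Fin.last n)) : a = b := by
  have ha : Fin.snoc (Fin.init a) (a (Fin.last n)) = a := Fin.snoc_init_self a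
  have hb : Fin.snoc (Fin.init b) (b (Fin.last n)) = b := Fin.snoc_init_self b
  rw [← ha, ← hb, h1, h2]

/-- On a rectangle on which the tower does not depend on Alice's coordinates, one has
`|A| |B| ≤ (q L) ^ n`. -/
theorem IsTower.rect {K : Type} [Fintype K] [DecidableEq K] {L : ℕ} (hL : 1 ≤ L) {n : ℕ}
    {F : (Fin (n + 1) → K) → (Fin n → K) → K} (hF : IsTower K L n F) :
    ∀ (A : Finset (Fin (n + 1) → K)) (B : Finset (Fin n → K)),
      (∀ a ∈ A, ∀ a' ∈ A, ∀ b ∈ B, F a b = F a' b) →
      A.card * B.card ≤ (Fintype.card K * L) ^ n := by
  induction hF with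
  | base h hh =>
    intro A B hc
    rw [pow_zero]
    rcases B.eq_empty_or_nonempty with rfl | ⟨b, hb⟩
    · simp
    have h1 : A.card ≤ 1 := Finset.card_le_one.2 fun a ha a' ha' => by
      have := hh (hc a ha a' ha' b hb)
      funext i
      have hi : i = 0 := Fin.ext (by omega)
      rw [hi]
      exact this
    have h2 : B.card ≤ 1 := Finset.card_le_one.2 fun a _ a' _ => by
      funext i
      exact i.elim0
    calc A.card * B.card ≤ 1 * 1 := Nat.mul_le_mul h1 h2
      _ = 1 := by norm_num
  | @step n F hF G H h1 h2 h3 h4 ih =>
    intro A B hc
    simp only at hc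
    -- slices of `A` with a fixed top coordinate
    set q := Fintype.card K with hq
    let B' : Finset (Fin n → K) := B.image Fin.init
    have hslice : ∀ x : K, ((A.filter fun a => a (Fin.last (n + 1)) = x).card) * B'.card ≤
        (q * L) ^ n := by
      intro x
      have e1 : (A.filter fun a => a (Fin.last (n + 1)) = x).card =
          ((A.filter fun a => a (Fin.last (n + 1)) = x).image Fin.init).card := by
        symm
        apply Finset.card_image_of_injOn
        intro a ha a' ha' haa
        rw [Finset.mem_coe, Finset.mem_filter] at ha ha'
        exact eq_of_init_last haa (ha.2.trans ha'.2.symm)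
      rw [e1]
      apply ih
      intro a ha a' ha' b hb
      obtain ⟨a1, ha1, rfl⟩ := Finset.mem_image.1 ha
      obtain ⟨a2, ha2, rfl⟩ := Finset.mem_image.1 ha'
      obtain ⟨b1, hb1, rfl⟩ := Finset.mem_image.1 hb
      rw [Finset.mem_filter] at ha1 ha2
      have := hc a1 ha1.1 a2 ha2.1 b1 hb1
      rw [ha1.2, ha2.2] at this
      exact h3 _ (h1 _ this)
    by_cases hone : ∃ x, ∀ a ∈ A, a (Fin.last (n + 1)) = x
    · -- one top coordinate
      obtain ⟨x, hx⟩ := hone
      have e1 : A.filter (fun a => a (Fin.last (n + 1)) = x) = A := Finset.filter_true_of_mem hx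
      have e2 := hslice x
      rw [e1] at e2
      have e3 : B.card ≤ q * B'.card := by
        apply Finset.card_le_mul_card_image
        intro b _
        calc (B.filter fun a => Fin.init a = b).card
            ≤ ((univ : Finset K).image fun y => (Fin.snoc b y : Fin (n + 1) → K)).card := by
              apply Finset.card_le_card
              intro c hc'
              rw [Finset.mem_filter] at hc'
              refine Finset.mem_image.2 ⟨c (Fin.last n), Finset.mem_univ _, ?_⟩
              rw [← hc'.2]
              exact Fin.snoc_init_self c
          _ ≤ q := Finset.card_image_le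
      calc A.card * B.card ≤ A.card * (q * B'.card) := Nat.mul_le_mul_left _ e3
        _ = q * (A.card * B'.card) := by ring
        _ ≤ q * (q * L) ^ n := Nat.mul_le_mul_left _ e2
        _ ≤ (q * L) * (q * L) ^ n := Nat.mul_le_mul_right _ (Nat.le_mul_of_pos_right _ hL)
        _ = (q * L) ^ (n + 1) := by ring
    · -- two top coordinates
      rcases A.eq_empty_or_nonempty with rfl | ⟨a, ha⟩
      · simp
      push Not at hone
      obtain ⟨a', ha', hne⟩ := hone (a (Fin.last (n + 1)))
      have e3 : B.card ≤ L * B'.card := by
        apply Finset.card_le_mul_card_image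
        intro b hb
        by_cases hu : F (Fin.init a) b = F (Fin.init a') b
        · -- impossible
          exfalso
          obtain ⟨b1, hb1, rfl⟩ := Finset.mem_image.1 hb
          have := hc a ha a' ha' b1 hb1
          rw [hu] at this
          exact hne (h2 _ this).symm
        · calc (B.filter fun c => Fin.init c = b).card
              ≤ (univ.filter fun y => H (G (F (Fin.init a) b) y) (a (Fin.last (n + 1))) =
                  H (G (F (Fin.init a') b) y) (a' (Fin.last (n + 1)))).card := by
                apply Finset.card_le_card_of_injOn (fun c => c (Fin.last n))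
                · intro c hc'
                  rw [Finset.mem_coe, Finset.mem_filter] at hc'
                  rw [Finset.mem_coe, Finset.mem_filter]
                  refine ⟨Finset.mem_univ _, ?_⟩
                  have := hc a ha a' ha' c hc'.1
                  rw [hc'.2] at this
                  exact this
                · intro c hc1 d hd1 hcd
                  rw [Finset.mem_coe, Finset.mem_filter] at hc1 hd1
                  exact eq_of_init_last (hc1.2.trans hd1.2.symm) hcd
            _ ≤ L := h4 _ _ _ _ hu
      have e4 : A.card * B'.card ≤ q * (q * L) ^ n := by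
        have : A.card = ∑ x : K, (A.filter fun a => a (Fin.last (n + 1)) = x).card :=
          Finset.card_eq_sum_card_fiberwise (fun _ _ => Finset.mem_coe.2 (Finset.mem_univ _))
        rw [this, Finset.sum_mul]
        calc ∑ x : K, (A.filter fun a => a (Fin.last (n + 1)) = x).card * B'.card
            ≤ ∑ _x : K, (q * L) ^ n := Finset.sum_le_sum fun x _ => hslice x
          _ = q * (q * L) ^ n := by rw [Finset.sum_const, Finset.card_univ, smul_eq_mul]
      calc A.card * B.card ≤ A.card * (L * B'.card) := Nat.mul_le_mul_left _ e3
        _ = L * (A.card * B'.card) := by ring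
        _ ≤ L * (q * (q * L) ^ n) := Nat.mul_le_mul_left _ e4
        _ = (q * L) ^ (n + 1) := by ring

/-- Towers can be composed with injective functions. -/
theorem IsTower.comp {K : Type} [Fintype K] [DecidableEq K] {L n : ℕ}
    {F : (Fin (n + 1) → K) → (Fin n → K) → K} (hF : IsTower K L n F) (g : K → K)
    (hg : Function.Injective g) : IsTower K L n (fun a b => g (F a b)) := by
  cases hF with
  | base h hh => exact IsTower.base (fun x => g (h x)) (hg.comp hh)
  | step F hF G H h1 h2 h3 h4 =>
    refine IsTower.step F hF G (fun s x => g (H s x)) (fun x => hg.comp (h1 x))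
      (fun s => hg.comp (h2 s)) h3 ?_
    intro u u' x x' hu
    refine le_trans (le_of_eq ?_) (h4 u u' x x' hu)
    congr 1
    ext y
    simp only [Finset.mem_filter, Finset.mem_univ, true_and]
    exact hg.eq_iff

end Pool.Agent.Helper7.LQ
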