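import Pool.Agent.Helper7.LQ.Defs
import Pool.Agent.Helper7.LQ.Rect
import Pool.Agent.Helper7.LQ.Poly

/-!
# The value of the root as a function of the leaves of a chain is a tower
-/

namespace Pool.Agent.Helper7.LQ

open Pool.Agent.Helper6.TreeEval Finset

variable {K : Type} [Field K]

theorem cval_congr {z z' : Node → K} : ∀ (j : ℕ) (u : Node),
    (∀ w : Node, w.length = j → z (w ++ u) = z' (w ++ u)) → cval z j u = cval z' j u
  | 0, u, h => h [] rfl
  | j + 1, u, h => by
    have h1 : ∀ b : Bool, cval z j (b :: u) = cval z' j (b :: u) := by
      intro b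
      apply cval_congr j (b :: u)
      intro w hw
      have := h (w ++ [b]) (by simp [hw])
      simpa using this
    simp only [cval, h1]

/-- A leaf below a node is not below its sibling. -/
theorem append_ne {w w' u : Node} {b : Bool} (hw : w.length = w'.length) :
    w ++ b :: u ≠ w' ++ (!b) :: u := by
  intro h
  have := (List.append_inj h hw).2
  cases b <;> simp at this

theorem Chain.mem {L : List Node} {j : ℕ} {u : Node} (h : Chain L j u) :
    ∀ e ∈ L, ∃ w : Node, w.length = j ∧ e = w ++ u := by
  induction h with
  | nil j u => simp
  | @skip L j u b h ih =>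
    intro e he
    obtain ⟨w, hw, rfl⟩ := ih e he
    exact ⟨w ++ [b], by simp [hw], by simp⟩
  | @record L j u b w hw h ih =>
    intro e he
    rcases List.mem_cons.1 he with rfl | he
    · exact ⟨w ++ [!b], by simp [hw], by simp⟩
    · obtain ⟨w, hw, rfl⟩ := ih e he
      exact ⟨w ++ [b], by simp [hw], by simp⟩

theorem Chain.nodup {L : List Node} {j : ℕ} {u : Node} (h : Chain L j u) : L.Nodup := by
  induction h with
  | nil j u => simp
  | skip b h ih => exact ih
  | @record L j u b w hw h ih =>
    refine List.nodup_cons.2 ⟨fun hm => ?_, ih⟩
    obtain ⟨w', hw', he⟩ := h.mem _ hm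
    exact append_ne (hw'.trans hw.symm) he.symm

/-- The value of a node does not depend on a leaf which is not below it. -/
theorem cval_update_off (z : Node → K) (e : Node) (x : K) {j : ℕ} {u : Node}
    (he : ∀ w : Node, w.length = j → e ≠ w ++ u) : cval (Function.update z e x) j u = cval z j u :=
  cval_congr j u fun w hw => Function.update_of_ne (he w hw).symm _ _

/-- The value of a node is an injective function of each leaf below it. -/
theorem cval_update_injective (hcube : Function.Injective fun x : K => x ^ 3) (z : Node → K) :
    ∀ (j : ℕ) (w u : Node), w.length = j →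
      Function.Injective fun x => cval (Function.update z (w ++ u) x) j u
  | 0, w, u, hw => by
    have : w = [] := List.length_eq_zero_iff.1 hw
    subst this
    intro x y hxy
    simpa [cval] using hxy
  | j + 1, w, u, hw => by
    obtain ⟨w', c, rfl⟩ : ∃ w' c, w = w' ++ [c] := by
      rcases List.eq_nil_or_concat w with rfl | ⟨w', c, h⟩
      · simp at hw
      · exact ⟨w', c, by simpa using h⟩
    have hw' : w'.length = j := by simpa using hw
    have ih := cval_update_injective hcube z j w' (c :: u) hw'
    have hoff : ∀ x, cval (Function.update z (w' ++ c :: u) x) j ((!c) :: u) =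
        cval z j ((!c) :: u) := fun x =>
      cval_update_off z _ x fun w hw => append_ne (hw'.trans hw.symm)
    intro x y hxy
    have e1 : w' ++ [c] ++ u = w' ++ c :: u := by simp
    simp only [e1, cval] at hxy
    have h1 := hcube hxy
    cases c
    · have h2 := hoff x
      have h3 := hoff y
      simp only [Bool.not_false] at h2 h3
      rw [h2, h3] at h1
      exact ih (add_right_cancel h1)
    · have h2 := hoff x
      have h3 := hoff y
      simp only [Bool.not_true] at h2 h3
      rw [h2, h3] at h1
      exact ih (add_left_cancel h1)

/-- The assignment which gives the members of the list (from the last one upwards) alternately the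
values `a` and `b` and agrees with `z` elsewhere. -/
def asg (z : Node → K) : (n : ℕ) → List Node → (Fin (n + 1) → K) → (Fin n → K) → Node → K
  | 0, e :: _, a, _ => Function.update z e (a 0)
  | n + 1, e :: f :: L, a, b =>
    Function.update (Function.update (asg z n L (Fin.init a) (Fin.init b)) f (b (Fin.last n))) e
      (a (Fin.last (n + 1)))
  | _, _, _, _ => z

theorem asg_off (z : Node → K) : ∀ (n : ℕ) (L : List Node) (a : Fin (n + 1) → K) (b : Fin n → K)
    (e : Node), e ∉ L → asg z n L a b e = z e
  | 0, [], a, b, e, _ => rfl
  | 0, f :: L, a, b, e, he => by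
    rw [List.mem_cons, not_or] at he
    exact Function.update_of_ne he.1 _ _
  | n + 1, [], a, b, e, _ => rfl
  | n + 1, [f], a, b, e, _ => rfl
  | n + 1, f :: g :: L, a, b, e, he => by
    rw [List.mem_cons, List.mem_cons, not_or, not_or] at he
    simp only [asg]
    rw [Function.update_of_ne he.1, Function.update_of_ne he.2.1]
    exact asg_off z n L _ _ e he.2.2

/-- The values of the two children in either order. -/
theorem cval_succ (z : Node → K) (j : ℕ) (u : Node) (b : Bool) :
    cval z (j + 1) u = (cval z j ((!b) :: u) + cval z j (b :: u)) ^ 3 := by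
  cases b
  · simp only [cval, Bool.not_false]
    rw [add_comm]
  · simp only [cval, Bool.not_true]

variable [Fintype K] [DecidableEq K]

/-- The main lemma. Part 1: an odd chain whose first and last members are Alice's. Part 2: the
same with one more member of Bob on top. -/
theorem Chain.tower {jj : ℕ} (hjj : Odd jj) (hcard : Fintype.card K = 2 ^ jj) {L₀ : ℕ}
    {L : List Node} {j : ℕ} {u : Node} (h : Chain L j u) (hL₀ : 3 ^ (j + 1) ≤ 3 * L₀)
    (z : Node → K) :
    (∀ n, L.length = 2 * n + 1 → IsTower K L₀ n (fun a b => cval (asg z n L a b) j u)) ∧
    (∀ n f L', L = f :: L' → L'.length = 2 * n + 1 →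
      ∃ (F : (Fin (n + 1) → K) → (Fin n → K) → K) (φ : K → K) (ρ : K → K) (t : ℕ),
        IsTower K L₀ n F ∧ t + 1 ≤ j ∧ Good (3 ^ t) φ ∧ Function.Injective φ ∧
        Function.Injective ρ ∧
        ∀ a b y, cval (Function.update (asg z n L' a b) f y) j u = φ ((F a b + ρ y) ^ 3)) := by
  have hcube : Function.Injective fun x : K => x ^ 3 := cube_injective hjj hcard
  have hjj0 : jj ≠ 0 := by
    rintro rfl
    simp at hjj
  induction h with
  | nil j u =>
    refine ⟨fun n hn => ?_, fun n f L' hL => ?_⟩
    · simp at hn
    · simp at hL
  | @skip L j u b h ih =>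
    have hL₀' : 3 ^ (j + 1) ≤ 3 * L₀ := le_trans (Nat.pow_le_pow_right (by norm_num) (by omega)) hL₀
    obtain ⟨ih1, ih2⟩ := ih hL₀'
    -- the sibling has a constant value
    have hsib : ∀ z' : Node → K, (∀ e, e ∉ L → z' e = z e) →
        cval z' j ((!b) :: u) = cval z j ((!b) :: u) := by
      intro z' hz'
      apply cval_congr
      intro w hw
      apply hz'
      intro hm
      obtain ⟨w', hw', he⟩ := h.mem _ hm
      exact append_ne (hw'.trans hw.symm) he.symm
    refine ⟨fun n hn => ?_, fun n f L' hL hn => ?_⟩
    · have h1 := (ih1 n hn).comp (fun s => (cval z j ((!b) :: u) + s) ^ 3)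
        (fun x y hxy => add_left_cancel (hcube hxy))
      have h2 : (fun (a : Fin (n + 1) → K) (b' : Fin n → K) => cval (asg z n L a b') (j + 1) u) =
          fun a b' => (cval z j ((!b) :: u) + cval (asg z n L a b') j (b :: u)) ^ 3 := by
        funext a b'
        rw [cval_succ _ _ _ b, hsib _ fun e he => asg_off z n L a b' e he]
      rw [h2]
      exact h1
    · obtain ⟨F, φ, ρ, t, hF, ht, hφ, hφi, hρ, he⟩ := ih2 n f L' hL hn
      refine ⟨F, fun s => (φ s + cval z j ((!b) :: u)) ^ 3, ρ, t + 1, hF, by omega, ?_, ?_, hρ, ?_⟩
      · have := hφ.outer (Nat.one_le_pow _ _ (by norm_num)) (cval z j ((!b) :: u))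
        rwa [pow_succ, mul_comm (3 ^ t)]
      · intro x y hxy
        exact hφi (add_right_cancel (hcube hxy))
      · intro a b' y
        rw [cval_succ _ _ _ b, hsib, he, add_comm]
        intro e he
        rw [hL, List.mem_cons, not_or] at he
        rw [Function.update_of_ne he.1]
        exact asg_off z n L' a b' e he.2
  | @record L j u b w hw h ih =>
    have hL₀' : 3 ^ (j + 1) ≤ 3 * L₀ := le_trans (Nat.pow_le_pow_right (by norm_num) (by omega)) hL₀
    obtain ⟨ih1, ih2⟩ := ih hL₀'
    set e := w ++ (!b) :: u with hedef
    have hρ : Function.Injective fun x => cval (Function.update z e x) j ((!b) :: u) :=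
      cval_update_injective hcube z j w ((!b) :: u) hw
    -- the sibling sees only `e`
    have hsib : ∀ (z' : Node → K) (x : K), (∀ f, f ∉ L → f ≠ e → z' f = z f) → z' e = x →
        cval z' j ((!b) :: u) = cval (Function.update z e x) j ((!b) :: u) := by
      intro z' x hz' hx
      apply cval_congr
      intro w' hw'
      by_cases he : w' ++ (!b) :: u = e
      · rw [he, Function.update_self, hx]
      · rw [Function.update_of_ne he]
        refine hz' _ ?_ he
        intro hm
        obtain ⟨w'', hw'', he'⟩ := h.mem _ hm
        exact append_ne (hw''.trans hw'.symm) he'.symm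
    -- the child does not see `e`
    have hoff : ∀ (z' : Node → K) (x : K), cval (Function.update z' e x) j (b :: u) =
        cval z' j (b :: u) := by
      intro z' x
      apply cval_update_off
      intro w' hw' he
      exact append_ne (hw'.trans hw.symm) he.symm
    refine ⟨fun n hn => ?_, fun n f L' hL hn => ?_⟩
    · rcases L with - | ⟨f, L'⟩
      · -- the bottom
        have hn0 : n = 0 := by simpa using hn
        subst hn0
        have h2 : (fun (a : Fin (0 + 1) → K) (b' : Fin 0 → K) =>
            cval (asg z 0 [e] a b') (j + 1) u) =
            fun a _ => (cval (Function.update z e (a 0)) j ((!b) :: u) +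
              cval z j (b :: u)) ^ 3 := by
          funext a b'
          simp only [asg]
          rw [cval_succ _ _ _ b, hoff]
        rw [h2]
        exact IsTower.base (fun s => (cval (Function.update z e s) j ((!b) :: u) +
          cval z j (b :: u)) ^ 3) fun x y hxy => hρ (add_right_cancel (hcube hxy))
      · obtain ⟨n, rfl⟩ : ∃ m, n = m + 1 := by
          simp only [List.length_cons] at hn
          exact ⟨n - 1, by omega⟩
        have hlen : L'.length = 2 * n + 1 := by
          simp only [List.length_cons] at hn
          omega
        obtain ⟨F, φ, ρ', t, hF, ht, hφ, hφi, hρ', he⟩ := ih2 n f L' rfl hlen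
        have hne : f ≠ e := by
          rintro rfl
          exact (Chain.record b w hw h).nodup.notMem (by simp [← hedef])
        have h2 : (fun (a : Fin (n + 1 + 1) → K) (b' : Fin (n + 1) → K) =>
            cval (asg z (n + 1) (e :: f :: L') a b') (j + 1) u) =
            fun a b' =>
              (cval (Function.update z e (a (Fin.last (n + 1)))) j ((!b) :: u) +
                φ ((F (Fin.init a) (Fin.init b') + ρ' (b' (Fin.last n))) ^ 3)) ^ 3 := by
          funext a b'
          simp only [asg]
          rw [cval_succ _ _ _ b, hoff, he]
          congr 2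
          apply hsib
          · intro g hg hge
            rw [List.mem_cons, not_or] at hg
            rw [Function.update_of_ne hge, Function.update_of_ne hg.1]
            exact asg_off z n L' _ _ g hg.2
          · rw [Function.update_self]
        rw [h2]
        refine IsTower.step F hF (fun v y => (v + ρ' y) ^ 3)
          (fun s x => (cval (Function.update z e x) j ((!b) :: u) + φ s) ^ 3) ?_ ?_ ?_ ?_
        · intro x s s' hs
          exact hφi (add_left_cancel (hcube hs))
        · intro s x x' hx
          exact hρ (add_right_cancel (hcube hx))
        · intro y v v' hv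
          exact add_right_cancel (hcube hv)
        · intro v v' x x' hv
          have hD : 1 ≤ 3 ^ t := Nat.one_le_pow _ _ (by norm_num)
          have hK : ((3 * 3 ^ t : ℕ) : K) ≠ 0 := by
            refine odd_cast_ne_zero hjj0 hcard ?_
            rw [← pow_succ']
            exact Odd.pow (by decide)
          have hc := hφ.count hD hK hv (cval (Function.update z e x') j ((!b) :: u) -
            cval (Function.update z e x) j ((!b) :: u))
          have h3 : 3 * 3 ^ t ≤ L₀ := by
            have h4 : 3 ^ (t + 2) ≤ 3 ^ (j + 1 + 1) := Nat.pow_le_pow_right (by norm_num) (by omega)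
            have h5 : 3 ^ (t + 2) = 3 * (3 * 3 ^ t) := by ring
            omega
          refine le_trans ?_ (hc.trans h3)
          apply Finset.card_le_card_of_injOn ρ'
          · intro y hy
            rw [Finset.mem_coe, Finset.mem_filter] at hy ⊢
            refine ⟨Finset.mem_univ _, ?_⟩
            have h6 := hcube hy.2
            have h7 : φ ((v + ρ' y) ^ 3) = φ ((v' + ρ' y) ^ 3) +
                (cval (Function.update z e x') j ((!b) :: u) -
                  cval (Function.update z e x) j ((!b) :: u)) := by
              linear_combination h6
            exact h7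
          · exact hρ'.injOn
    · simp only [List.cons.injEq] at hL
      obtain ⟨rfl, rfl⟩ := hL
      refine ⟨fun a b' => cval (asg z n L a b') j (b :: u), fun s => s,
        fun x => cval (Function.update z e x) j ((!b) :: u), 0, ih1 n hn, by omega, ?_,
        Function.injective_id, hρ, ?_⟩
      · rw [pow_zero]
        exact Good.id
      · intro a b' y
        rw [cval_succ _ _ _ b, hoff, add_comm]
        congr 2
        apply hsib
        · intro g hg hge
          rw [Function.update_of_ne hge]
          exact asg_off z n L _ _ g hg
        · rw [Function.update_self]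

end Pool.Agent.Helper7.LQ
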